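import Pool.Agent.X139.AR.Walk

/-!
# MP_31ab2b_pr: the random walk in a field of unit arrows does not homogenize

The quenched kernel `p_ω(n + 1, 0)` depends on the arrows at the neighbours of `0` through its last
step, so its ratio to the averaged kernel cannot tend to `1` in measure: the condition (ii) fails in
every dimension `d ≥ 1` and for every `ε < 1 / (2 d)`.
-/

set_option autoImplicit false

namespace Pool.Agent.Results.MP_31ab2b_pr.NeverHomogenizes

open MeasureTheory Filter Topology ProbabilityTheory
open scoped ENNReal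
open Pool.Agent.X139.AR

variable {d : ℕ} {Ω : Type*} [MeasurableSpace Ω]

/-- the condition (i): the central limit theorem for the averaged law -/
def CondI (P : Measure Ω) (ε : ℝ) (N : (Fin d → ℤ) → Ω → Fin d × Bool) : Prop :=
  ∃ σ : ℝ, 0 < σ ∧ ∀ f : BoundedContinuousFunction (EuclideanSpace ℝ (Fin d)) ℝ,
    Tendsto (fun n : ℕ => ∑' x : Fin d → ℤ, mean P ε N n x *
      f (WithLp.toLp 2 (fun i => (x i : ℝ) / Real.sqrt n))) atTop
      (𝓝 (∫ y, f (σ • y) ∂(stdGaussian (EuclideanSpace ℝ (Fin d)))))

/-- the model homogenizes -/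
def Homogenizes (P : Measure Ω) (ε : ℝ) (N : (Fin d → ℤ) → Ω → Fin d × Bool) : Prop :=
  CondI P ε N ∧ CondII P ε N

/-- the law of the environment -/
noncomputable def law (d : ℕ) [NeZero d] : Measure ((Fin d → ℤ) → Fin d × Bool) :=
  Measure.infinitePi (fun _ => (PMF.uniformOfFintype (Fin d × Bool)).toMeasure)

theorem result (d : ℕ) [NeZero d] :
    -- the coordinates are independent uniform arrows
    IsProbabilityMeasure (law d) ∧ IsArrowField (law d) (fun x ω => ω x) ∧
    -- the condition (ii) fails, hence the model does not homogenize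
    ∀ ε : ℝ, 0 < ε → ε < 1 / (2 * d) →
      ¬ CondII (law d) ε (fun x ω => ω x) ∧ ¬ Homogenizes (law d) ε (fun x ω => ω x) := by
  have hd : 0 < d := Nat.pos_of_ne_zero (NeZero.ne d)
  have hp : IsProbabilityMeasure (law d) := by
    unfold law
    infer_instance
  have hA : IsArrowField (law d) (fun x ω => ω x) := by
    refine ⟨fun x => measurable_pi_apply x, ?_, fun x a => ?_⟩
    · exact iIndepFun_infinitePi (X := fun _ y => y) (fun _ => measurable_id)
    · have h1 : (law d).map (fun ω => ω x) = (PMF.uniformOfFintype (Fin d × Bool)).toMeasure :=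
        (measurePreserving_eval_infinitePi _ x).map_eq
      have h2 : law d {ω | ω x = a} = (law d).map (fun ω => ω x) {a} := by
        rw [Measure.map_apply (measurable_pi_apply x) (measurableSet_singleton a)]
        rfl
      rw [h2, h1, PMF.toMeasure_uniformOfFintype_apply _ (measurableSet_singleton a)]
      simp only [Fintype.card_unique, Fintype.card_prod, Fintype.card_fin, Fintype.card_bool]
      rw [ENNReal.ofReal_div_of_pos (by positivity), ENNReal.ofReal_one]
      congr 1
      · simp
      · rw [show (2 * (d : ℝ)) = ((d * 2 : ℕ) : ℝ) by push_cast; ring, ENNReal.ofReal_natCast]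
  refine ⟨hp, hA, fun ε hε hε1 => ?_⟩
  have h1 : 2 * d * ε < 1 := by
    have : (0:ℝ) < 2 * d := by positivity
    rw [lt_div_iff₀ this] at hε1
    linarith
  have h2 := not_condII hd hA hε h1
  exact ⟨h2, fun h => h2 h.2⟩

end Pool.Agent.Results.MP_31ab2b_pr.NeverHomogenizes
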